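import Mathlib

/-! Passage from the coordinate form of the golden ratio theorem to families of disks and lines
as affine subspaces. -/

namespace Pool.Agent.Lib.GT32

open Metric Pointwise

theorem bridge
    (H : ∀ (r : ℝ), 0 < r → ∀ (n : ℕ) (x : Fin n → EuclideanSpace ℝ (Fin 2)),
      (∀ i j k : Fin n, ∃ p v : EuclideanSpace ℝ (Fin 2), v ≠ 0 ∧
        ∀ m : Fin n, (m = i ∨ m = j ∨ m = k) → ∃ t : ℝ, dist (p + t • v) (x m) ≤ r) →
      ∃ p v : EuclideanSpace ℝ (Fin 2), v ≠ 0 ∧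
        ∀ m : Fin n, ∃ t : ℝ, dist (p + t • v) (x m) ≤ ((1 + Real.sqrt 5) / 2) * r)
    (r : ℝ) (hr : 0 < r) (X : Finset (EuclideanSpace ℝ (Fin 2)))
    (h : ∀ T ⊆ X, T.card = 3 → ∃ l : AffineSubspace ℝ (EuclideanSpace ℝ (Fin 2)),
      Module.finrank ℝ l.direction = 1 ∧
        ∀ x ∈ T, ((x +ᵥ closedBall (0 : EuclideanSpace ℝ (Fin 2)) r) ∩ l).Nonempty) :
    ∃ l : AffineSubspace ℝ (EuclideanSpace ℝ (Fin 2)), Module.finrank ℝ l.direction = 1 ∧
      ∀ x ∈ X, ((x +ᵥ Real.goldenRatio • closedBall (0 : EuclideanSpace ℝ (Fin 2)) r) ∩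
        l).Nonempty := by
  classical
  have two : ∀ a b : EuclideanSpace ℝ (Fin 2), ∃ p v : EuclideanSpace ℝ (Fin 2), v ≠ 0 ∧
      ∀ y, (y = a ∨ y = b) → ∃ t : ℝ, dist (p + t • v) y ≤ r := by
    intro a b
    by_cases hab : b = a
    · obtain ⟨v, hv⟩ := exists_ne (0 : EuclideanSpace ℝ (Fin 2))
      refine ⟨a, v, hv, fun y hy => ⟨0, ?_⟩⟩
      rw [hab, or_self] at hy
      simp [hy, hr.le]
    · refine ⟨a, b - a, sub_ne_zero.mpr hab, ?_⟩
      rintro y (rfl | rfl)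
      · exact ⟨0, by simp [hr.le]⟩
      · exact ⟨1, by simp [hr.le]⟩
  let x : Fin X.card → EuclideanSpace ℝ (Fin 2) := fun i => (X.equivFin.symm i).1
  obtain ⟨p, v, hv, hp⟩ := H r hr X.card x fun i j k => by
    by_cases h1 : x i = x j
    · obtain ⟨p, v, hv, hp⟩ := two (x j) (x k)
      exact ⟨p, v, hv, by rintro m (rfl | rfl | rfl) <;> exact hp _ (by simp [h1])⟩
    by_cases h2 : x i = x k
    · obtain ⟨p, v, hv, hp⟩ := two (x j) (x k)
      exact ⟨p, v, hv, by rintro m (rfl | rfl | rfl) <;> exact hp _ (by simp [h2])⟩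
    by_cases h3 : x j = x k
    · obtain ⟨p, v, hv, hp⟩ := two (x i) (x k)
      exact ⟨p, v, hv, by rintro m (rfl | rfl | rfl) <;> exact hp _ (by simp [h3])⟩
    obtain ⟨l, hl, hT⟩ := h {x i, x j, x k} (by
      intro y hy
      simp only [Finset.mem_insert, Finset.mem_singleton] at hy
      rcases hy with rfl | rfl | rfl <;> exact Subtype.property _)
      (Finset.card_eq_three.mpr ⟨_, _, _, h1, h2, h3, rfl⟩)
    obtain ⟨v, hv, hsp⟩ := finrank_eq_one_iff'.mp hl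
    obtain ⟨p, -, hp⟩ := hT (x i) (by simp)
    refine ⟨p, v, fun h0 => hv (Subtype.ext h0), fun m hm => ?_⟩
    obtain ⟨y, hy, hy'⟩ := hT (x m) (by rcases hm with rfl | rfl | rfl <;> simp)
    obtain ⟨t, ht⟩ := hsp ⟨y -ᵥ p, AffineSubspace.vsub_mem_direction hy' hp⟩
    have h4 : t • (v : EuclideanSpace ℝ (Fin 2)) = y - p := congrArg Subtype.val ht
    rw [vadd_closedBall_zero] at hy
    exact ⟨t, by rw [h4, add_sub_cancel]; exact hy⟩
  refine ⟨AffineSubspace.mk' p (Submodule.span ℝ {v}), ?_, fun y hy => ?_⟩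
  · rw [AffineSubspace.direction_mk', finrank_span_singleton hv]
  · obtain ⟨t, ht⟩ := hp (X.equivFin ⟨y, hy⟩)
    refine ⟨p + t • v, ?_, ?_⟩
    · rw [smul_closedBall' Real.goldenRatio_ne_zero, smul_zero, vadd_closedBall_zero,
        Real.norm_of_nonneg Real.goldenRatio_pos.le]
      simpa [x] using ht
    · rw [SetLike.mem_coe, AffineSubspace.mem_mk', vsub_eq_sub, add_sub_cancel_left]
      exact Submodule.smul_mem _ _ (Submodule.mem_span_singleton_self v)

end Pool.Agent.Lib.GT32
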